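import Pool.Agent.W770.PC.Stms

set_option autoImplicit false

/-! PC-tameP (MP_5ab805_an): polynomials are tame for the paraboloid. -/

open MeasureTheory Set Filter Topology
open scoped ENNReal NNReal

namespace Pool.Agent.W465.PC
open Pool.Agent.W770.PC

lemma totalDegree_pderiv_le (Q : MvPolynomial (Fin 2) ℝ) (i : Fin 2) :
    (MvPolynomial.pderiv i Q).totalDegree ≤ Q.totalDegree := by
  conv_lhs => rw [Q.as_sum, map_sum]
  apply MvPolynomial.totalDegree_finsetSum_le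
  intro s hs
  rw [MvPolynomial.pderiv_monomial]
  refine (MvPolynomial.totalDegree_monomial_le _ _).trans ?_
  refine le_trans ?_ (MvPolynomial.le_totalDegree hs)
  rw [Finsupp.sum_fintype _ _ (fun _ => rfl), Finsupp.sum_fintype _ _ (fun _ => rfl)]
  apply Finset.sum_le_sum
  intro j _
  simp only [id, Finsupp.tsub_apply]
  exact Nat.sub_le _ _

lemma hess_nonneg (g : ℝ × ℝ → ℝ) (y : ℝ × ℝ) : 0 ≤ hess g y := by
  unfold hess; positivity

lemma NN_nonneg (g : ℝ × ℝ → ℝ) (a : ℕ) (k : ℕ × ℕ) : 0 ≤ NN g a k :=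
  integral_nonneg fun y => hess_nonneg g y

lemma cell_compact (a : ℕ) (k : ℕ × ℕ) : IsCompact (cell a k) := isCompact_Icc.prod isCompact_Icc

/-- the paraboloid -/
def hp (y : ℝ × ℝ) : ℝ := y.1 ^ 2 + y.2 ^ 2

lemma hp_smooth : ContDiff ℝ (⊤ : ℕ∞) hp := by
  unfold hp
  fun_prop

lemma d1_hp (y : ℝ × ℝ) : d1 hp y = 2 * y.1 := by
  unfold d1 hp
  have h : HasDerivAt (fun u : ℝ => u ^ 2 + y.2 ^ 2) (2 * y.1) y.1 := by
    have := (hasDerivAt_pow 2 y.1).add_const (y.2 ^ 2)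
    simpa using this
  exact h.deriv

lemma d2_hp (y : ℝ × ℝ) : d2 hp y = 2 * y.2 := by
  unfold d2 hp
  have h : HasDerivAt (fun v : ℝ => y.1 ^ 2 + v ^ 2) (2 * y.2) y.2 := by
    have := (hasDerivAt_pow 2 y.2).const_add (y.1 ^ 2)
    simpa using this
  exact h.deriv

lemma d11_hp (y : ℝ × ℝ) : d1 (d1 hp) y = 2 := by
  have h0 : d1 hp = fun y => 2 * y.1 := funext d1_hp
  rw [h0]
  unfold d1
  have h : HasDerivAt (fun u : ℝ => 2 * u) 2 y.1 := by
    simpa using (hasDerivAt_id y.1).const_mul (2 : ℝ)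
  exact h.deriv

lemma d12_hp (y : ℝ × ℝ) : d1 (d2 hp) y = 0 := by
  have h0 : d2 hp = fun y => 2 * y.2 := funext d2_hp
  rw [h0]
  unfold d1
  simp

lemma d22_hp (y : ℝ × ℝ) : d2 (d2 hp) y = 2 := by
  have h0 : d2 hp = fun y => 2 * y.2 := funext d2_hp
  rw [h0]
  unfold d2
  have h : HasDerivAt (fun u : ℝ => 2 * u) 2 y.2 := by
    simpa using (hasDerivAt_id y.2).const_mul (2 : ℝ)
  exact h.deriv

/-- second derivatives of the phase -/
lemma ph2 (h6 : S_der) {F : ℝ × ℝ → ℝ} (hF : ContDiff ℝ (⊤ : ℕ∞) F) (t : ℝ) (y : ℝ × ℝ) :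
    d1 (d1 (ph F hp t)) y = d1 (d1 F) y + 2 * t ∧ d1 (d2 (ph F hp t)) y = d1 (d2 F) y ∧
    d2 (d2 (ph F hp t)) y = d2 (d2 F) y + 2 * t := by
  obtain ⟨f1, f2, -, -, -, -, fph, -, -⟩ := h6 F hF
  obtain ⟨g1, g2, -, -, -, -, -, -, -⟩ := h6 hp hp_smooth
  have e1 : d1 (ph F hp t) = ph (d1 F) (d1 hp) t := by
    funext z
    exact (fph hp hp_smooth t z).1
  have e2 : d2 (ph F hp t) = ph (d2 F) (d2 hp) t := by
    funext z
    exact (fph hp hp_smooth t z).2
  obtain ⟨-, -, -, -, -, -, fph1, -, -⟩ := h6 (d1 F) f1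
  obtain ⟨-, -, -, -, -, -, fph2, -, -⟩ := h6 (d2 F) f2
  refine ⟨?_, ?_, ?_⟩
  · rw [e1, (fph1 (d1 hp) g1 t y).1, d11_hp]; ring
  · rw [e2, (fph2 (d2 hp) g2 t y).1, d12_hp]; ring
  · rw [e2, (fph2 (d2 hp) g2 t y).2, d22_hp]; ring

theorem tameP_thm (h1 : S_dpf) (h2 : S_cells) (h3 : S_area) (h4 : S_line) (h5 : S_tq) (h6 : S_der)
    (h7 : S_cell) : S_tameP := by
  intro D
  obtain ⟨Cc, hCc, hcells⟩ := h2 (max D 2)
  obtain ⟨Ca, hCa, harea⟩ := h3 (max D 2)
  obtain ⟨Cl, hCl, hline⟩ := h4 (max D 2)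
  refine ⟨Cc + Ca + Cl + 12, fun P hP => ?_⟩
  have hC1 : Cc ≤ Cc + Ca + Cl + 12 := by linarith
  have hC2 : Ca ≤ Cc + Ca + Cl + 12 := by linarith
  have hC3 : Cl ≤ Cc + Ca + Cl + 12 := by linarith
  have hC4 : (12 : ℝ) ≤ Cc + Ca + Cl + 12 := by linarith
  have hC0 : 0 ≤ Cc + Ca + Cl + 12 := by linarith
  generalize Cc + Ca + Cl + 12 = C at *
  obtain ⟨hsm, -, -, hph, htd⟩ := h1 P
  set Q : ℝ → MvPolynomial (Fin 2) ℝ := fun t =>
    P + MvPolynomial.C t * (MvPolynomial.X 0 ^ 2 + MvPolynomial.X 1 ^ 2) with hQ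
  have hQd : ∀ t, (Q t).totalDegree ≤ max D 2 := fun t =>
    (htd t).trans (max_le_max hP le_rfl)
  have hphQ : ∀ t, ph (pf P) (fun y => y.1 ^ 2 + y.2 ^ 2) t = pf (Q t) := hph
  have hd1 : ∀ t, d1 (pf (Q t)) = pf (MvPolynomial.pderiv 0 (Q t)) := fun t => (h1 (Q t)).2.1
  have hd2 : ∀ t, d2 (pf (Q t)) = pf (MvPolynomial.pderiv 1 (Q t)) := fun t => (h1 (Q t)).2.2.1
  have hp0 : ∀ t, (MvPolynomial.pderiv 0 (Q t)).totalDegree ≤ max D 2 := fun t =>
    (totalDegree_pderiv_le _ _).trans (hQd t)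
  have hp1 : ∀ t, (MvPolynomial.pderiv 1 (Q t)).totalDegree ≤ max D 2 := fun t =>
    (totalDegree_pderiv_le _ _).trans (hQd t)
  have hhp : (fun y : ℝ × ℝ => y.1 ^ 2 + y.2 ^ 2) = hp := rfl
  refine ⟨hsm, hp_smooth, ?_, ?_, ?_, ?_, ?_, ?_, ?_, ?_, ?_⟩
  · intro t a k _ y hy
    rw [hphQ]
    refine ((hcells (Q t) (hQd t)).1 a k y hy).trans ?_
    have := NN_nonneg (pf (Q t)) a k
    gcongr
  · intro t a k _ y hy
    rw [hphQ]
    refine ((hcells (Q t) (hQd t)).2.1 a k y hy).trans ?_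
    have := NN_nonneg (pf (Q t)) a k
    gcongr
  · intro t a k _ k' _ e1 e2
    rw [hphQ]
    refine ((hcells (Q t) (hQd t)).2.2 a k k' e1 e2).trans ?_
    have := NN_nonneg (pf (Q t)) (a + 1) k
    gcongr
  · intro t φ hφ
    rw [hphQ]
    refine (setLIntegral_le_lintegral _ _).trans ((harea (Q t) (hQd t) φ hφ).trans ?_)
    gcongr
  · intro t φ hφ
    rw [hphQ, hd1, (h1 _).2.1]
    refine ((hline _ (hp0 t) φ hφ).1).trans ?_
    gcongr
  · intro t φ hφ
    rw [hphQ]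
    have hcomm : ∀ y, d1 (d2 (pf (Q t))) y = pf (MvPolynomial.pderiv 1 (MvPolynomial.pderiv 0 (Q t))) y := by
      intro y
      have := (h6 (pf (Q t)) (h1 (Q t)).1).2.2.2.2.2.1 y
      rw [← this, hd1, (h1 _).2.2.1]
    simp only [hcomm]
    rw [hd1]
    refine ((hline _ (hp0 t) φ hφ).2).trans ?_
    gcongr
  · intro t φ hφ
    rw [hphQ, hd2, (h1 _).2.2.1]
    refine ((hline _ (hp1 t) φ hφ).2).trans ?_
    gcongr
  · intro y _ L Δ hL hΔ
    rw [hhp]
    have hset : {t : ℝ | L ≤ hess (ph (pf P) hp t) y ∧ |det2 (ph (pf P) hp t) y| ≤ Δ} =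
        {t : ℝ | L ≤ |d1 (d1 (pf P)) y + 2 * t| + |d1 (d2 (pf P)) y| + |d2 (d2 (pf P)) y + 2 * t| ∧
          |(d1 (d1 (pf P)) y + 2 * t) * (d2 (d2 (pf P)) y + 2 * t) - d1 (d2 (pf P)) y ^ 2| ≤ Δ} := by
      ext t
      obtain ⟨e1, e2, e3⟩ := ph2 h6 hsm t y
      simp only [Set.mem_ofPred_eq, hess, det2, e1, e2, e3]
    rw [hset]
    refine (h5 _ _ _ L Δ hL hΔ).trans ?_
    gcongr
  · intro k hk
    rw [hhp]
    have hvol : (volume (cell 0 k)).toReal = 4 := by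
      rw [h7.2.1]
      norm_num
    set c : ℝ := ∫ y in cell 0 k, d1 (d1 (pf P)) y with hc
    have hcont1 : Continuous (d1 (d1 (pf P))) :=
      (h6 _ (h6 _ hsm).1).1.continuous
    have hint1 : IntegrableOn (d1 (d1 (pf P))) (cell 0 k) :=
      hcont1.continuousOn.integrableOn_compact (cell_compact 0 k)
    have hlow : ∀ t, |c + 8 * t| ≤ NN (ph (pf P) hp t) 0 k := by
      intro t
      have hphs : ContDiff ℝ (⊤ : ℕ∞) (ph (pf P) hp t) := by
        have := hphQ t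
        rw [hhp] at this
        rw [this]
        exact (h1 (Q t)).1
      have hhess : Continuous (hess (ph (pf P) hp t)) := (h6 _ hphs).2.2.2.2.2.2.2.1
      have e1 : ∫ y in cell 0 k, d1 (d1 (ph (pf P) hp t)) y = c + 8 * t := by
        have e2 : ∀ y, d1 (d1 (ph (pf P) hp t)) y = d1 (d1 (pf P)) y + 2 * t := fun y =>
          (ph2 h6 hsm t y).1
        simp only [e2]
        rw [integral_add hint1 ((continuous_const).continuousOn.integrableOn_compact
          (cell_compact 0 k)), setIntegral_const, smul_eq_mul]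
        have : volume.real (cell 0 k) = 4 := hvol
        rw [this]
        ring
      rw [← e1]
      refine (abs_integral_le_integral_abs).trans ?_
      unfold NN
      have hcont2 : Continuous (d1 (d1 (ph (pf P) hp t))) := (h6 _ (h6 _ hphs).1).1.continuous
      refine setIntegral_mono_on ?_ ?_ (cell_compact 0 k).measurableSet ?_
      · exact hcont2.abs.continuousOn.integrableOn_compact (cell_compact 0 k)
      · exact hhess.continuousOn.integrableOn_compact (cell_compact 0 k)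
      · intro y _
        unfold hess
        have i1 := abs_nonneg (d1 (d2 (ph (pf P) hp t)) y)
        have i2 := abs_nonneg (d2 (d2 (ph (pf P) hp t)) y)
        linarith
    have hsub : {t : ℝ | NN (ph (pf P) hp t) 0 k ≤ 1} ⊆ Icc ((-1 - c) / 8) ((1 - c) / 8) := by
      intro t ht
      have h8 : |c + 8 * t| ≤ 1 := (hlow t).trans ht
      rw [abs_le] at h8
      constructor
      · rw [div_le_iff₀ (by norm_num)]; linarith [h8.1]
      · rw [le_div_iff₀ (by norm_num)]; linarith [h8.2]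
    refine (measure_mono hsub).trans ?_
    rw [Real.volume_Icc]
    apply ENNReal.ofReal_le_ofReal
    linarith

end Pool.Agent.W465.PC
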